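import Pool.Agent.H8.AV3.Stmts3

/-!
# Board av3b, module LOI: many pairs (lattice, good point) at infinity
-/

set_option autoImplicit false

namespace Pool.Agent.H64.AV3B

open Polynomial Matrix Pool.AVR Pool.AV3

theorem nE_equiv {R R' : Type} [CommRing R] [CommRing R'] (e : R ≃+* R') (a b c : R) :
    Pool.AVS.nE R' (e a) (e b) (e c) = Pool.AVS.nE R a b c := by
  unfold Pool.AVS.nE
  have h : {p : R' × R' | p.2 ^ 2 = p.1 ^ 3 + e a * p.1 ^ 2 + e b * p.1 + e c} =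
      (fun p : R × R => (e p.1, e p.2)) ''
        {p : R × R | p.2 ^ 2 = p.1 ^ 3 + a * p.1 ^ 2 + b * p.1 + c} := by
    ext ⟨x, y⟩
    constructor
    · intro h
      refine ⟨(e.symm x, e.symm y), ?_, by simp⟩
      apply e.injective
      simp only [map_pow, map_add, map_mul, RingEquiv.apply_symm_apply]
      exact h
    · rintro ⟨⟨x', y'⟩, h, h2⟩
      have h3 := Prod.mk.inj h2
      rw [← h3.1, ← h3.2]
      have h4 := congrArg e h
      simp only [map_pow, map_add, map_mul] at h4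
      exact h4
  rw [h]
  refine Set.ncard_image_of_injective _ ?_
  rintro ⟨x, y⟩ ⟨x', y'⟩ h1
  have h3 := Prod.mk.inj h1
  exact Prod.ext (e.injective h3.1) (e.injective h3.2)

theorem disc_map {R R' : Type} [CommRing R] [CommRing R'] (φ : R →+* R') (a b c : R) :
    φ (disc a b c) = disc (φ a) (φ b) (φ c) := by
  simp only [disc, map_sub, map_add, map_mul, map_pow, map_ofNat]

theorem card_adjoin {F : Type} [Field F] [Finite F] (N : ℕ) :
    Nat.card (AdjoinRoot ((X : F[X]) ^ N)) = Nat.card F ^ N := by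
  have hm : ((X : F[X]) ^ N).Monic := monic_X_pow N
  have h1 := (AdjoinRoot.powerBasis' hm).finrank
  have : Module.Finite F (AdjoinRoot ((X : F[X]) ^ N)) := (AdjoinRoot.powerBasis' hm).finite
  rw [Module.natCard_eq_pow_finrank (K := F), h1, AdjoinRoot.powerBasis'_dim, natDegree_X_pow]

theorem mem_inf {F : Type} [Field F] (p : F[X]) (M : ℕ) (hp : p.natDegree ≤ M) :
    algebraMap F[X] (RatFunc F) p / RatFunc.X ^ M ∈ Pool.AVS.Iinf F := by
  show (algebraMap F[X] (RatFunc F) p / RatFunc.X ^ M).intDegree ≤ 0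
  by_cases h0 : p = 0
  · rw [h0, map_zero, zero_div, RatFunc.intDegree_zero]
  · have h1 : algebraMap F[X] (RatFunc F) p ≠ 0 :=
      (map_ne_zero_iff _ (RatFunc.algebraMap_injective F)).2 h0
    have h2 : ((RatFunc.X : RatFunc F) ^ M) = algebraMap F[X] (RatFunc F) (X ^ M) := by
      rw [map_pow, RatFunc.algebraMap_X]
    have h3 : ((RatFunc.X : RatFunc F) ^ M) ≠ 0 := pow_ne_zero _ RatFunc.X_ne_zero
    rw [div_eq_mul_inv, RatFunc.intDegree_mul h1 (inv_ne_zero h3), RatFunc.intDegree_inv, h2,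
      RatFunc.intDegree_polynomial, RatFunc.intDegree_polynomial, natDegree_X_pow]
    omega

theorem loi_thm (hSEC : Pool.AV3.SECStmt) (hSCC : Pool.AV3.SCCStmt)
    (hLUG3 : Pool.AV3.LUG3Stmt) (hRII : Pool.AVS.RIIStmt) : Pool.AV3.LOIStmt := by
  intro F _ _ h2 n f hf c₀ hc₀ N hN
  obtain ⟨L, _, O, ι, hι, hcls⟩ := ((hSEC F h2 f).1 c₀ hc₀).2
  have hX0 : (RatFunc.X : RatFunc F) ≠ 0 := RatFunc.X_ne_zero
  have hιX : ι RatFunc.X ≠ 0 := (map_ne_zero ι).2 hX0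
  obtain ⟨⟨hf1, hf2, hf3⟩, hdisc0⟩ := hf
  obtain ⟨hk1, hk2, hk3⟩ := hRII F L O ι hι
  obtain ⟨e, he⟩ := hk3 N
  have hm1 : ι (algebraMap F[X] (RatFunc F) f.1 / RatFunc.X ^ (2 * n)) ∈ O :=
    (hι.mem _).2 (mem_inf _ _ hf1)
  have hm2 : ι (algebraMap F[X] (RatFunc F) f.2.1 / RatFunc.X ^ (4 * n)) ∈ O :=
    (hι.mem _).2 (mem_inf _ _ hf2)
  have hm3 : ι (algebraMap F[X] (RatFunc F) f.2.2 / RatFunc.X ^ (6 * n)) ∈ O :=
    (hι.mem _).2 (mem_inf _ _ hf3)
  obtain ⟨a, ha⟩ : ∃ a : O, a = ⟨_, hm1⟩ := ⟨_, rfl⟩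
  obtain ⟨b, hb⟩ : ∃ b : O, b = ⟨_, hm2⟩ := ⟨_, rfl⟩
  obtain ⟨c, hc⟩ : ∃ c : O, c = ⟨_, hm3⟩ := ⟨_, rfl⟩
  have he1 : e (Ideal.Quotient.mk _ a) = AdjoinRoot.mk (X ^ N) (Pool.AVS.finf n f).1 := by
    rw [ha]; exact he _ _ hf1 hm1
  have he2 : e (Ideal.Quotient.mk _ b) = AdjoinRoot.mk (X ^ N) (Pool.AVS.finf n f).2.1 := by
    rw [hb]; exact he _ _ hf2 hm2
  have he3 : e (Ideal.Quotient.mk _ c) = AdjoinRoot.mk (X ^ N) (Pool.AVS.finf n f).2.2 := by
    rw [hc]; exact he _ _ hf3 hm3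
  -- the local class of the scaled form
  have hsc := hSCC L _ _ _ (ι RatFunc.X ^ n) _ (pow_ne_zero n hιX) hcls
  have hA : (a : L) = ι (algebraMap F[X] (RatFunc F) f.1) / (ι RatFunc.X ^ n) ^ 2 := by
    rw [ha]
    show ι _ = _
    rw [map_div₀, map_pow, ← pow_mul, mul_comm n 2]
  have hB : (b : L) = ι (algebraMap F[X] (RatFunc F) f.2.1) / (ι RatFunc.X ^ n) ^ 4 := by
    rw [hb]
    show ι _ = _
    rw [map_div₀, map_pow, ← pow_mul, mul_comm n 4]
  have hC : (c : L) = ι (algebraMap F[X] (RatFunc F) f.2.2) / (ι RatFunc.X ^ n) ^ 6 := by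
    rw [hc]
    show ι _ = _
    rw [map_div₀, map_pow, ← pow_mul, mul_comm n 6]
  have hform : (fun i => ι (((((RatFunc.X : RatFunc F) ^ n)⁻¹) • c₀) i)) =
      (ι RatFunc.X ^ n)⁻¹ • fun i => ι (c₀ i) := by
    funext i
    simp only [Pi.smul_apply, smul_eq_mul, map_mul, map_inv₀, map_pow]
  have hcl : Cls ((a : L), (b : L), (c : L))
      (fun i => ι (((((RatFunc.X : RatFunc F) ^ n)⁻¹) • c₀) i)) := by
    rw [hform, hA, hB, hC]
    exact hsc
  have hdne : disc a b c ≠ 0 := by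
    intro h
    have h1 := congrArg (O.subtype) h
    rw [disc_map, map_zero] at h1
    have h1' : disc (a : L) (b : L) (c : L) = 0 := h1
    rw [hA, hB, hC] at h1'
    have h3 : disc (ι (algebraMap F[X] (RatFunc F) f.1)) (ι (algebraMap F[X] (RatFunc F) f.2.1))
        (ι (algebraMap F[X] (RatFunc F) f.2.2)) = 0 := by
      have h4 : disc (ι (algebraMap F[X] (RatFunc F) f.1))
          (ι (algebraMap F[X] (RatFunc F) f.2.1)) (ι (algebraMap F[X] (RatFunc F) f.2.2)) =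
          disc (ι (algebraMap F[X] (RatFunc F) f.1) / (ι RatFunc.X ^ n) ^ 2)
            (ι (algebraMap F[X] (RatFunc F) f.2.1) / (ι RatFunc.X ^ n) ^ 4)
            (ι (algebraMap F[X] (RatFunc F) f.2.2) / (ι RatFunc.X ^ n) ^ 6) *
              (ι RatFunc.X ^ n) ^ 12 := by
        have h5 : ι RatFunc.X ^ n ≠ 0 := pow_ne_zero n hιX
        unfold disc
        field_simp
      rw [h4, h1', zero_mul]
    rw [← disc_map, ← disc_map, map_eq_zero,
      map_eq_zero_iff _ (RatFunc.algebraMap_injective F)] at h3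
    exact hdisc0 h3
  obtain ⟨hLF1, hLFM⟩ := hLUG3 F (Pool.AVS.Iinf F) _ L O ι hι a b c hdne _ hcl
  have hq2 : 2 ≤ Nat.card F := Finite.one_lt_card
  have hqR : (2 : ℝ) ≤ (Nat.card F : ℝ) := by exact_mod_cast hq2
  by_cases hX : (X : F[X]) ^ N ∣ dsc (Pool.AVS.finf n f)
  · refine ⟨1, hLF1, le_refl _, ?_⟩
    unfold Bx
    rw [if_pos hX]
    norm_num
  · have hdisc : disc a b c ∉ (IsLocalRing.maximalIdeal O) ^ N := by
      intro h1
      have h3 : Ideal.Quotient.mk ((IsLocalRing.maximalIdeal O) ^ N) (disc a b c) = 0 :=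
        Ideal.Quotient.eq_zero_iff_mem.2 h1
      have h4 := congrArg e h3
      rw [map_zero, disc_map, ← RingEquiv.coe_toRingHom, disc_map] at h4
      rw [RingEquiv.coe_toRingHom, he1, he2, he3, ← disc_map, AdjoinRoot.mk_eq_zero] at h4
      exact hX h4
    obtain ⟨M, hLF, h3⟩ := hLFM N hdisc
    rw [hk1, ← nE_equiv e, he1, he2, he3] at h3
    have hpos : 0 < Nat.card F ^ (N - 1) := pow_pos (by omega) _
    have hM1 : 1 ≤ M := by
      by_contra h
      have h0 : M = 0 := by omega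
      rw [h0, zero_mul] at h3
      omega
    refine ⟨M, hLF, hM1, ?_⟩
    unfold Bx
    rw [if_neg hX]
    unfold Bw
    rw [card_adjoin, hk2]
    have hn : nET (md3 ((X : F[X]) ^ N) (Pool.AVS.finf n f)) =
      Pool.AVS.nE (AdjoinRoot ((X : F[X]) ^ N)) (AdjoinRoot.mk (X ^ N) (Pool.AVS.finf n f).1)
        (AdjoinRoot.mk (X ^ N) (Pool.AVS.finf n f).2.1)
        (AdjoinRoot.mk (X ^ N) (Pool.AVS.finf n f).2.2) := rfl
    rw [hn]
    obtain ⟨E, hE⟩ : ∃ E : ℕ, E = Pool.AVS.nE (AdjoinRoot ((X : F[X]) ^ N))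
        (AdjoinRoot.mk (X ^ N) (Pool.AVS.finf n f).1)
        (AdjoinRoot.mk (X ^ N) (Pool.AVS.finf n f).2.1)
        (AdjoinRoot.mk (X ^ N) (Pool.AVS.finf n f).2.2) := ⟨_, rfl⟩
    rw [← hE] at h3 ⊢
    have h4 : (E : ℝ) + (Nat.card F : ℝ) ^ (N - 1) ≤ M * (Nat.card F : ℝ) ^ (N - 1) := by
      exact_mod_cast h3
    have h5 : (Nat.card F : ℝ) ^ N = (Nat.card F : ℝ) * (Nat.card F : ℝ) ^ (N - 1) := by
      rw [← pow_succ', Nat.sub_add_cancel hN]
    have hp : (0 : ℝ) < (Nat.card F : ℝ) ^ (N - 1) := by positivity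
    have h6 : (Nat.card F : ℝ) * E / ((Nat.card F ^ N : ℕ) : ℝ) + 1 ≤ M := by
      rw [Nat.cast_pow, h5, mul_div_mul_left _ _ (by positivity)]
      have h7 : (E : ℝ) / (Nat.card F : ℝ) ^ (N - 1) ≤ (M : ℝ) - 1 := by
        rw [div_le_iff₀ hp]
        linarith
      linarith
    exact mul_le_mul_of_nonneg_left h6 (by linarith)

end Pool.Agent.H64.AV3B
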